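import Pool.Agent.Helper44.CK.Facts

/-!
# MP_be0fb5, Theorem A: the dihedral relabelling

All the facts except the two normalisations of the row sums are invariant under the relabelling
`D' k j = D (s k) (s j)` with `s` in the dihedral group of the cyclic order `0, 1, 2, 3`, and one
relabelling satisfies the two normalisations.
-/

set_option autoImplicit false

namespace Pool.Agent.Helper42.TET

open Finset Pool.Agent.Helper44.CK

/-- the facts without the normalisation of the row sums -/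
structure Pre (D : Cols) : Prop where
  diag : ∀ k, D k k = 0
  sum : ∀ k, ∑ j, D k j = 1
  box : ∀ k j, D k j ≤ 5 / 8
  obt : ∀ l m : Fin 4, l ≠ m → ∑ j, (D l j - D (l + 1) j) * (D m j - D (m + 1) j) ≤ 0
  fos : ∑ l : Fin 4, ∑ j, (D l j - D (l + 1) j) ^ 2 ≤ 4217 / 4096
  fosA : ∀ A : Finset (Fin 4), A.Nonempty → A ≠ univ →
    (1 / 2) * ∑ l : Fin 4, ∑ j, (D l j - D (l + 1) j) ^ 2
      - ∑ j, (∑ l ∈ A, (D l j - D (l + 1) j)) ^ 2 ≤ 703 / 2048
  wid : ∀ n : Fin 4 → ℤ, (∃ k, n k ≠ n 0) → Wid D n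
  cut : ∀ z : Fin 4 → ℤ, ∑ k, z k = 1 → ∀ e : ℝ, 0 ≤ e → e < 1 →
    (∃ i, ∑ k, (z k : ℝ) * D k i ≤ e) ∨ ∃ k, ∀ n : Fin 4 → ℤ, (∃ l, n l ≠ n 0) → WidT D k e n
  noM : ∀ (i : Fin 6) (pos : Fin 4 → Fin 4),
    ¬ ∀ j m, m ≠ pos j → D (TT i (m + 1)) j ≤ D (TT i m) j

/-- `s` is a symmetry of the cyclic order; `t l` is the image of the step `l` -/
structure Dih (s t : Equiv.Perm (Fin 4)) : Prop where
  step : (∀ l, s l = t l ∧ s (l + 1) = t l + 1) ∨ (∀ l, s (l + 1) = t l ∧ s l = t l + 1)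
  cones : ∀ i : Fin 6, ∃ (i' : Fin 6) (c : Fin 4), ∀ m, s (TT i m) = TT i' (m + c)

/-- the relabelled matrix -/
def rel (D : Cols) (s : Equiv.Perm (Fin 4)) : Cols := fun k j => D (s k) (s j)

variable {D : Cols} {s t : Equiv.Perm (Fin 4)}

/-- the sign of the symmetry on the steps -/
theorem Dih.sgn (hs : Dih s t) : ∃ ε : ℝ, ε ^ 2 = 1 ∧
    ∀ l j, rel D s l j - rel D s (l + 1) j = ε * (D (t l) (s j) - D (t l + 1) (s j)) := by
  rcases hs.step with h | h
  · refine ⟨1, by norm_num, fun l j => ?_⟩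
    obtain ⟨h1, h2⟩ := h l
    simp only [rel]
    rw [h2, h1]
    ring
  · refine ⟨-1, by norm_num, fun l j => ?_⟩
    obtain ⟨h1, h2⟩ := h l
    simp only [rel]
    rw [h1, h2]
    ring

theorem nonconst {n : Fin 4 → ℤ} (s : Equiv.Perm (Fin 4)) (h : ∃ k, n k ≠ n 0) :
    ∃ k, n (s.symm k) ≠ n (s.symm 0) := by
  by_contra hcon
  push Not at hcon
  obtain ⟨k, hk⟩ := h
  apply hk
  have h1 := hcon (s k)
  have h2 := hcon (s 0)
  rw [Equiv.symm_apply_apply] at h1 h2
  rw [h1, h2]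

theorem Pre.rel (h : Pre D) (hs : Dih s t) : Pre (rel D s) := by
  obtain ⟨ε, hε, hG⟩ := hs.sgn (D := D)
  have hsum : ∀ (F : Fin 4 → ℝ), ∑ j, F (s j) = ∑ j, F j := fun F => Equiv.sum_comp s F
  have hsq : ∑ l : Fin 4, ∑ j, (Helper42.TET.rel D s l j - Helper42.TET.rel D s (l + 1) j) ^ 2 =
      ∑ l : Fin 4, ∑ j, (D l j - D (l + 1) j) ^ 2 := by
    rw [← Equiv.sum_comp t (fun l => ∑ j, (D l j - D (l + 1) j) ^ 2)]
    refine Finset.sum_congr rfl fun l _ => ?_
    rw [← hsum (fun j => (D (t l) j - D (t l + 1) j) ^ 2)]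
    refine Finset.sum_congr rfl fun j _ => ?_
    rw [hG, mul_pow, hε, one_mul]
  refine ⟨fun k => h.diag _, fun k => ?_, fun k j => h.box _ _, fun l m hlm => ?_, ?_,
    fun A hA hA' => ?_, fun n hn => ?_, fun z hz e he0 he1 => ?_, fun i pos hM => ?_⟩
  · exact (hsum (fun j => D (s k) j)).trans (h.sum _)
  · have h1 := h.obt (t l) (t m) fun h0 => hlm (t.injective h0)
    rw [← hsum] at h1
    refine le_of_eq_of_le (Finset.sum_congr rfl fun j _ => ?_) h1
    rw [hG, hG]
    linear_combination ((D (t l) (s j) - D (t l + 1) (s j)) *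
      (D (t m) (s j) - D (t m + 1) (s j))) * hε
  · rw [hsq]
    exact h.fos
  · rw [hsq]
    have h1 := h.fosA (A.map t.toEmbedding) (hA.map) (fun h0 => hA' (by
      have h2 := congrArg Finset.card h0
      rw [Finset.card_map] at h2
      exact (Finset.card_eq_iff_eq_univ A).1 (h2.trans (by simp))))
    rw [← hsum (fun j => (∑ l ∈ A.map t.toEmbedding, (D l j - D (l + 1) j)) ^ 2)] at h1
    refine le_of_eq_of_le ?_ h1
    congr 1
    refine Finset.sum_congr rfl fun j _ => ?_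
    rw [Finset.sum_map]
    simp only [hG, Equiv.coe_toEmbedding]
    rw [← Finset.mul_sum, mul_pow, hε, one_mul]
  · obtain ⟨y, hy1, hy2⟩ := h.wid (fun k => n (s.symm k)) (nonconst s hn)
    refine ⟨fun i => y (s i), fun k => ?_, fun M m hMm => hy2 M m fun i => ?_⟩
    · have h1 := hy1 (s k)
      rw [← hsum (fun i => D (s k) i * y i)] at h1
      simp only [Equiv.symm_apply_apply] at h1
      exact h1
    · have := hMm (s.symm i)
      simpa only [Equiv.apply_symm_apply] using this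
  · rcases h.cut (fun k => z (s.symm k)) ((Equiv.sum_comp s.symm z).trans hz) e he0 he1 with
      ⟨i, hi⟩ | ⟨k, hk⟩
    · left
      refine ⟨s.symm i, ?_⟩
      rw [← hsum (fun k => ((z (s.symm k) : ℤ) : ℝ) * D k i)] at hi
      simp only [Equiv.symm_apply_apply] at hi
      simpa only [Helper42.TET.rel, Equiv.apply_symm_apply] using hi
    · right
      refine ⟨s.symm k, fun n hn => ?_⟩
      obtain ⟨y, hy1, hy2⟩ := hk (fun k => n (s.symm k)) (nonconst s hn)
      refine ⟨fun i => y (s i), fun k => ?_, fun M m hMm => hy2 M m fun i hik => ?_⟩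
      · have h1 := hy1 (s k)
        rw [← hsum (fun i => D (s k) i * y i)] at h1
        simp only [Equiv.symm_apply_apply] at h1
        exact h1
      · have := hMm (s.symm i) fun h0 => hik (s.symm.injective h0)
        simpa only [Equiv.apply_symm_apply] using this
  · obtain ⟨i', c, hc⟩ := hs.cones i
    refine h.noM i' (fun j => pos (s.symm j) + c) fun j m hm => ?_
    have h1 := hM (s.symm j) (m - c) fun h0 => hm (by rw [← h0, sub_add_cancel])
    simp only [Helper42.TET.rel, Equiv.apply_symm_apply, hc] at h1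
    have h2 : m - c + 1 + c = m + 1 := by
      rw [sub_add_eq_add_sub, sub_add_cancel]
    rwa [h2, sub_add_cancel] at h1

/-- the rotation by `a` -/
def ro (a : Fin 4) : Equiv.Perm (Fin 4) where
  toFun k := k + a
  invFun k := k - a
  left_inv k := add_sub_cancel_right k a
  right_inv k := sub_add_cancel k a

/-- the reflection `k ↦ a - k` -/
def rf (a : Fin 4) : Equiv.Perm (Fin 4) where
  toFun k := a - k
  invFun k := a - k
  left_inv k := sub_sub_cancel a k
  right_inv k := sub_sub_cancel a k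

theorem dih_ro : ∀ a : Fin 4, Dih (ro a) (ro a) := by
  intro a
  refine ⟨Or.inl fun l => ⟨rfl, ?_⟩, ?_⟩
  · change l + 1 + a = l + a + 1
    abel
  · revert a
    decide

theorem dih_rf : ∀ a : Fin 4, Dih (rf a) (rf (a - 1)) := by
  intro a
  refine ⟨Or.inr fun l => ⟨?_, ?_⟩, ?_⟩
  · change a - (l + 1) = a - 1 - l
    abel
  · change a - l = a - 1 - l + 1
    abel
  · revert a
    decide

theorem rowsum_rel (D : Cols) (s : Equiv.Perm (Fin 4)) (j : Fin 4) :
    ∑ k, rel D s k j = ∑ k, D k (s j) := Equiv.sum_comp s (fun k => D k (s j))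

theorem facts_of (h : Pre D) (h0 : ∀ i, ∑ k, D k i ≤ ∑ k, D k 0) (h3 : ∑ k, D k 3 ≤ ∑ k, D k 1) :
    Facts D := ⟨h.diag, h.sum, h.box, h.obt, h.fos, h.fosA, h.wid, h0, h3, h.cut, h.noM⟩

/-- **(R)**: some relabelling satisfies all the facts. -/
theorem exists_rel (h : Pre D) : ∃ s : Equiv.Perm (Fin 4), Facts (rel D s) := by
  obtain ⟨a, -, ha⟩ := Finset.exists_max_image Finset.univ (fun i => ∑ k, D k i)
    ⟨0, Finset.mem_univ 0⟩
  by_cases h1 : ∑ k, D k (3 + a) ≤ ∑ k, D k (1 + a)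
  · refine ⟨ro a, facts_of (h.rel (dih_ro a)) (fun i => ?_) ?_⟩
    · rw [rowsum_rel, rowsum_rel]
      have h2 : ro a 0 = a := zero_add a
      rw [h2]
      exact ha _ (Finset.mem_univ _)
    · rw [rowsum_rel, rowsum_rel]
      exact h1
  · refine ⟨rf a, facts_of (h.rel (dih_rf a)) (fun i => ?_) ?_⟩
    · rw [rowsum_rel, rowsum_rel]
      have h2 : rf a 0 = a := sub_zero a
      rw [h2]
      exact ha _ (Finset.mem_univ _)
    · rw [rowsum_rel, rowsum_rel]
      have h3 : rf a 3 = 1 + a := (by decide : ∀ a : Fin 4, a - 3 = 1 + a) a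
      have h4 : rf a 1 = 3 + a := (by decide : ∀ a : Fin 4, a - 1 = 3 + a) a
      rw [h3, h4]
      exact (not_le.1 h1).le

theorem exists_facts (h : Pre D) : ∃ D' : Cols, Facts D' := by
  obtain ⟨s, hs⟩ := exists_rel h
  exact ⟨_, hs⟩

end Pool.Agent.Helper42.TET
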