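import Pool.Agent.Helper73.FX.Ell
import Pool.Agent.Helper84.FL.Geom

/-!
# MP_be0fb5, tetrahedra and Theorem A: the Foster facts of a wide chain simplex

`g` are the four facet functionals (sum zero, spanning), `K` lies in `{g_j . x ≤ b_j}` with
`∑ b_j = 1`, `f` is an obtuse superbase for `Q = ∑ g_j g_jᵀ`.  If `K` is wider than `w` in every
nonzero integer direction then `∑_l |G_l|² ≤ 12 / w²` and `(1/2) ∑_l |G_l|² - |G_A|² ≤ 4 / w²`.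
-/

set_option autoImplicit false

namespace Pool.Agent.Helper42.TET

open Matrix Pool.Agent.Helper12.LW Pool.Agent.Helper73.FX
open Pool.Agent.Helper84.FL (Superbase WidthLe)

/-- the form of four functionals -/
noncomputable def Qg (g : Fin 4 → Fin 3 → ℝ) : Matrix (Fin 3) (Fin 3) ℝ :=
  ∑ j, vecMulVec (g j) (g j)

variable {g : Fin 4 → Fin 3 → ℝ}

theorem Qg_mulVec (g : Fin 4 → Fin 3 → ℝ) (x : Fin 3 → ℝ) :
    Qg g *ᵥ x = ∑ j, (g j ⬝ᵥ x) • g j := by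
  rw [Qg, sum_mulVec]
  refine Finset.sum_congr rfl fun j _ => ?_
  rw [vecMulVec_mulVec]
  simp only [op_smul_eq_smul]

theorem bf_Qg (g : Fin 4 → Fin 3 → ℝ) (x y : Fin 3 → ℝ) :
    x ⬝ᵥ Qg g *ᵥ y = ∑ j, (g j ⬝ᵥ x) * (g j ⬝ᵥ y) := by
  rw [Qg_mulVec, dotProduct_sum]
  refine Finset.sum_congr rfl fun j _ => ?_
  rw [dotProduct_smul, smul_eq_mul, dotProduct_comm x]
  ring

theorem qf_Qg (g : Fin 4 → Fin 3 → ℝ) (x : Fin 3 → ℝ) : qf (Qg g) x = ∑ j, (g j ⬝ᵥ x) ^ 2 := by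
  rw [qf, bf_Qg]
  exact Finset.sum_congr rfl fun j _ => (sq _).symm

theorem Qg_symm (g : Fin 4 → Fin 3 → ℝ) : (Qg g).IsSymm := by
  rw [IsSymm, Qg, transpose_sum]
  exact Finset.sum_congr rfl fun j _ => transpose_vecMulVec _ _

theorem Qg_posDef (hspan : ∀ x : Fin 3 → ℝ, (∀ j, g j ⬝ᵥ x = 0) → x = 0) : (Qg g).PosDef := by
  refine PosDef.of_dotProduct_mulVec_pos ?_ fun x hx => ?_
  · rw [IsHermitian, conjTranspose_eq_transpose_of_trivial]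
    exact Qg_symm g
  · have h1 : star x ⬝ᵥ Qg g *ᵥ x = ∑ j, (g j ⬝ᵥ x) ^ 2 := by
      rw [star_trivial, ← qf_Qg]
      rfl
    rw [h1]
    by_contra hcon
    have h2 : ∑ j, (g j ⬝ᵥ x) ^ 2 = 0 :=
      le_antisymm (not_lt.1 hcon) (Finset.sum_nonneg fun j _ => sq_nonneg _)
    rw [Finset.sum_eq_zero_iff_of_nonneg fun j _ => sq_nonneg _] at h2
    exact hx (hspan x fun j => by
      have := h2 j (Finset.mem_univ j)
      exact pow_eq_zero_iff (two_ne_zero) |>.1 this)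

/-- coefficients of `u` in the functionals -/
noncomputable def co (g : Fin 4 → Fin 3 → ℝ) (u : Fin 3 → ℝ) (j : Fin 4) : ℝ :=
  g j ⬝ᵥ ((Qg g)⁻¹ *ᵥ u)

theorem co_sum (hQ : (Qg g).PosDef) (u : Fin 3 → ℝ) : u = ∑ j, co g u j • g j := by
  have h := Qg_mulVec g ((Qg g)⁻¹ *ᵥ u)
  rw [mul_inv_vec hQ] at h
  exact h

theorem co_sq (hQ : (Qg g).PosDef) (u : Fin 3 → ℝ) : ∑ j, co g u j ^ 2 = qf (Qg g)⁻¹ u := by
  rw [← qf_inv hQ, qf_Qg]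
  rfl

/-- two coefficients of an integer direction differ by more than the width -/
theorem exists_pair (hQ : (Qg g).PosDef) (hg : ∑ j, g j = 0) {b : Fin 4 → ℝ} (hb : ∑ j, b j = 1)
    {K : Set (Fin 3 → ℝ)} (hK : ∀ x ∈ K, ∀ j, g j ⬝ᵥ x ≤ b j) {w : ℝ} (hw : ¬ WidthLe K w)
    (u : Fin 3 → ℤ) (hu : u ≠ 0) : ∃ i k, w < co g (toR u) i - co g (toR u) k := by
  have h0 : ∃ x ∈ K, ∃ x' ∈ K, w < ∑ i, (x i - x' i) * (u i : ℝ) := by
    by_contra hcon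
    push Not at hcon
    exact hw ⟨u, hu, hcon⟩
  obtain ⟨x, hx, x', hx', hlt⟩ := h0
  have h1 : ∑ i, (x i - x' i) * (u i : ℝ) = toR u ⬝ᵥ (x - x') := by
    rw [dotProduct]
    exact Finset.sum_congr rfl fun i _ => by
      simp only [Pi.sub_apply, toR]
      ring
  set a := co g (toR u) with ha
  have h2 : toR u ⬝ᵥ (x - x') = ∑ j, a j * (b j - g j ⬝ᵥ x') - ∑ j, a j * (b j - g j ⬝ᵥ x) := by
    conv_lhs => rw [co_sum hQ (toR u), sum_dotProduct]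
    rw [← Finset.sum_sub_distrib]
    refine Finset.sum_congr rfl fun j _ => ?_
    rw [smul_dotProduct, dotProduct_sub, smul_eq_mul]
    ring
  have hs : ∀ y : Fin 3 → ℝ, ∑ j, (b j - g j ⬝ᵥ y) = 1 := by
    intro y
    rw [Finset.sum_sub_distrib, hb, ← sum_dotProduct, hg, zero_dotProduct, sub_zero]
  obtain ⟨i, -, hi⟩ := Finset.exists_max_image Finset.univ a ⟨0, Finset.mem_univ 0⟩
  obtain ⟨k, -, hk⟩ := Finset.exists_min_image Finset.univ a ⟨0, Finset.mem_univ 0⟩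
  refine ⟨i, k, ?_⟩
  have h3 : ∑ j, a j * (b j - g j ⬝ᵥ x') ≤ a i := by
    calc ∑ j, a j * (b j - g j ⬝ᵥ x') ≤ ∑ j, a i * (b j - g j ⬝ᵥ x') :=
          Finset.sum_le_sum fun j _ => mul_le_mul_of_nonneg_right (hi j (Finset.mem_univ j))
            (sub_nonneg.2 (hK x' hx' j))
      _ = a i := by rw [← Finset.mul_sum, hs, mul_one]
  have h4 : a k ≤ ∑ j, a j * (b j - g j ⬝ᵥ x) := by
    calc a k = ∑ j, a k * (b j - g j ⬝ᵥ x) := by rw [← Finset.mul_sum, hs, mul_one]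
      _ ≤ ∑ j, a j * (b j - g j ⬝ᵥ x) :=
          Finset.sum_le_sum fun j _ => mul_le_mul_of_nonneg_right (hk j (Finset.mem_univ j))
            (sub_nonneg.2 (hK x hx j))
  rw [h1, h2] at hlt
  linarith

/-- the dual form is at least `w² / 2` on nonzero integer vectors -/
theorem inv_ge (hQ : (Qg g).PosDef) (hg : ∑ j, g j = 0) {b : Fin 4 → ℝ} (hb : ∑ j, b j = 1)
    {K : Set (Fin 3 → ℝ)} (hK : ∀ x ∈ K, ∀ j, g j ⬝ᵥ x ≤ b j) {w : ℝ} (hw0 : 0 < w)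
    (hw : ¬ WidthLe K w) (u : Fin 3 → ℤ) (hu : u ≠ 0) : w ^ 2 / 2 ≤ qf (Qg g)⁻¹ (toR u) := by
  obtain ⟨i, k, hik⟩ := exists_pair hQ hg hb hK hw u hu
  have hne : i ≠ k := by
    rintro rfl
    linarith
  rw [← co_sq hQ]
  set a := co g (toR u) with ha
  have h1 : a i ^ 2 + a k ^ 2 ≤ ∑ j, a j ^ 2 := by
    rw [← Finset.sum_pair (f := fun j => a j ^ 2) hne]
    exact Finset.sum_le_sum_of_subset_of_nonneg (Finset.subset_univ _) fun j _ _ => sq_nonneg _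
  nlinarith [sq_nonneg (a i + a k), mul_pos hw0 hw0]

theorem sp_Qg (g : Fin 4 → Fin 3 → ℝ) (f : Fin 4 → Fin 3 → ℤ) (l m : Fin 4) :
    sp (Qg g) f l m = -∑ j, (g j ⬝ᵥ toR (f l)) * (g j ⬝ᵥ toR (f m)) := by
  rw [sp, bf_Qg]

theorem PP_Qg (g : Fin 4 → Fin 3 → ℝ) (f : Fin 4 → Fin 3 → ℤ) :
    PP (Qg g) f = (∑ l, ∑ j, (g j ⬝ᵥ toR (f l)) ^ 2) / 2 := by
  rw [PP]
  simp only [qf_Qg]

/-- **Foster facts.** -/
theorem foster_facts {f : Fin 4 → Fin 3 → ℤ} (hf : Superbase f)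
    (hspan : ∀ x : Fin 3 → ℝ, (∀ j, g j ⬝ᵥ x = 0) → x = 0) (hg : ∑ j, g j = 0) {b : Fin 4 → ℝ}
    (hb : ∑ j, b j = 1) {K : Set (Fin 3 → ℝ)} (hK : ∀ x ∈ K, ∀ j, g j ⬝ᵥ x ≤ b j) {w : ℝ}
    (hw0 : 0 < w) (hw : ¬ WidthLe K w)
    (hobt : ∀ l m, l ≠ m → ∑ j, (g j ⬝ᵥ toR (f l)) * (g j ⬝ᵥ toR (f m)) ≤ 0) :
    ∑ l, ∑ j, (g j ⬝ᵥ toR (f l)) ^ 2 ≤ 12 / w ^ 2 ∧
      ∀ A : Finset (Fin 4), A.Nonempty → A ≠ Finset.univ →
        (∑ l, ∑ j, (g j ⬝ᵥ toR (f l)) ^ 2) / 2 - ∑ j, (g j ⬝ᵥ toR (∑ l ∈ A, f l)) ^ 2 ≤ 4 / w ^ 2 := by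
  have hQ := Qg_posDef hspan
  have hinv := inv_ge hQ hg hb hK hw0 hw
  have hp : ∀ l m, l ≠ m → 0 ≤ sp (Qg g) f l m := fun l m hlm => by
    rw [sp_Qg]
    linarith [hobt l m hlm]
  have hμ : 0 < w ^ 2 / 2 := by positivity
  obtain ⟨d, hd⟩ := exists_dual hf
  refine ⟨?_, fun A hA hA' => ?_⟩
  · have h1 := foster hQ hf.sum hd
    have h2 : (∑ l, ∑ m, pw (Qg g) f l m) * (w ^ 2 / 2) ≤ 6 := by
      rw [← h1, Finset.sum_mul]
      refine Finset.sum_le_sum fun l _ => ?_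
      rw [Finset.sum_mul]
      refine Finset.sum_le_sum fun m _ => ?_
      by_cases hlm : l = m
      · rw [pw, if_pos hlm]
        simp
      · exact mul_le_mul_of_nonneg_left (hinv _ (U_ne hd hlm)) (pw_nonneg hp l m)
    rw [sum_pw (Qg_symm g) hf.sum, PP_Qg] at h2
    rw [le_div_iff₀ (by positivity)]
    linarith
  · have h1 := PP_le_cut hQ hf.sum hd hp hμ hinv hA hA'
    rw [PP_Qg, qf_Qg] at h1
    have h2 : 2 / (w ^ 2 / 2) = 4 / w ^ 2 := by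
      field_simp
      norm_num
    rw [h2] at h1
    linarith

/-- every cut is at most half of the total length (obtuse superbases) -/
theorem cut_le {f : Fin 4 → Fin 3 → ℤ} (hf : Superbase f)
    (hobt : ∀ l m, l ≠ m → ∑ j, (g j ⬝ᵥ toR (f l)) * (g j ⬝ᵥ toR (f m)) ≤ 0) (A : Finset (Fin 4)) :
    ∑ j, (g j ⬝ᵥ toR (∑ l ∈ A, f l)) ^ 2 ≤ (∑ l, ∑ j, (g j ⬝ᵥ toR (f l)) ^ 2) / 2 := by
  have hs := Qg_symm g
  obtain ⟨d, hd⟩ := exists_dual hf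
  have hp : ∀ l m, l ≠ m → 0 ≤ sp (Qg g) f l m := fun l m hlm => by
    rw [sp_Qg]
    linarith [hobt l m hlm]
  rw [← qf_Qg, ← PP_Qg, cut_eq hs hf.sum hd, div_le_iff₀ two_pos]
  have h1 := sum_pw hs hf.sum
  rw [mul_comm, ← h1]
  refine Finset.sum_le_sum fun l _ => Finset.sum_le_sum fun m _ => ?_
  rcases ee_sq A l m with h3 | h3
  · rw [h3, mul_zero]
    exact pw_nonneg hp l m
  · rw [h3, mul_one]

/-- an entry of a vector of sum zero -/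
theorem entry_sq {v : Fin 4 → ℝ} (hv : ∑ j, v j = 0) (i : Fin 4) : v i ^ 2 ≤ 3 / 4 * ∑ j, v j ^ 2 := by
  rw [Fin.sum_univ_four] at hv ⊢
  fin_cases i
  · have : v 0 = -(v 1 + v 2 + v 3) := by linarith
    simp only [Fin.zero_eta, this]
    nlinarith [sq_nonneg (v 1 - v 2), sq_nonneg (v 1 - v 3), sq_nonneg (v 2 - v 3)]
  · have : v 1 = -(v 0 + v 2 + v 3) := by linarith
    simp only [Fin.mk_one, this]
    nlinarith [sq_nonneg (v 0 - v 2), sq_nonneg (v 0 - v 3), sq_nonneg (v 2 - v 3)]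
  · have : v 2 = -(v 0 + v 1 + v 3) := by linarith
    simp only [Fin.reduceFinMk, this]
    nlinarith [sq_nonneg (v 0 - v 1), sq_nonneg (v 0 - v 3), sq_nonneg (v 1 - v 3)]
  · have : v 3 = -(v 0 + v 1 + v 2) := by linarith
    simp only [Fin.reduceFinMk, this]
    nlinarith [sq_nonneg (v 0 - v 1), sq_nonneg (v 0 - v 2), sq_nonneg (v 1 - v 2)]

/-- **Box.** All products of the functionals with the cut vectors are smaller than `5 / 8`. -/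
theorem box {f : Fin 4 → Fin 3 → ℤ} (hf : Superbase f)
    (hspan : ∀ x : Fin 3 → ℝ, (∀ j, g j ⬝ᵥ x = 0) → x = 0) (hg : ∑ j, g j = 0) {b : Fin 4 → ℝ}
    (hb : ∑ j, b j = 1) {K : Set (Fin 3 → ℝ)} (hK : ∀ x ∈ K, ∀ j, g j ⬝ᵥ x ≤ b j) {w : ℝ}
    (hw0 : 17 / 5 ≤ w) (hw : ¬ WidthLe K w)
    (hobt : ∀ l m, l ≠ m → ∑ j, (g j ⬝ᵥ toR (f l)) * (g j ⬝ᵥ toR (f m)) ≤ 0) (A : Finset (Fin 4))
    (j : Fin 4) : |g j ⬝ᵥ toR (∑ l ∈ A, f l)| < 5 / 8 := by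
  have hwp : 0 < w := by linarith
  have h1 := (foster_facts hf hspan hg hb hK hwp hw hobt).1
  have h2 := cut_le hf hobt A
  have h3 := entry_sq (v := fun j => g j ⬝ᵥ toR (∑ l ∈ A, f l))
    (by rw [← sum_dotProduct, hg, zero_dotProduct]) j
  have h4 : 12 / w ^ 2 ≤ 12 / (17 / 5) ^ 2 := by
    apply div_le_div_of_nonneg_left (by norm_num) (by norm_num)
    exact pow_le_pow_left₀ (by norm_num) hw0 2
  have h5 : (12 : ℝ) / (17 / 5) ^ 2 = 300 / 289 := by norm_num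
  rw [h5] at h4
  have h6 : (g j ⬝ᵥ toR (∑ l ∈ A, f l)) ^ 2 < (5 / 8) ^ 2 := by
    linarith
  exact abs_lt_of_sq_lt_sq h6 (by norm_num)

end Pool.Agent.Helper42.TET
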